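import Mathlib
import Pool.Agent.H.MP_a87126_al.Grp

namespace Pool.Agent.Results.MP_a87126_al.Sharp

/-- `m G`: the least order of a finite group `H` with an injective homomorphism `ι : G → H`
such that every `ι g` is a square in `H`. -/
noncomputable def m (G : Type) [Group G] : ℕ :=
  sInf {n : ℕ | ∃ (H : Type) (_ : Group H) (_ : Finite H) (ι : G →* H),
    Function.Injective ι ∧ (∀ g : G, ∃ h : H, h ^ 2 = ι g) ∧ Nat.card H = n}

/-- The constants `c` with `m G ≤ c |G|²` for all finite groups of sufficiently large order. -/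
def admissible : Set ℝ :=
  {c | ∃ N : ℕ, ∀ (G : Type) [Group G] [Finite G], N ≤ Nat.card G →
    (m G : ℝ) ≤ c * (Nat.card G : ℝ) ^ 2}

open Pool.Agent.H.MP_a87126_al

theorem m_le (G : Type) [Group G] [Finite G] : m G ≤ 2 * Nat.card G ^ 2 :=
  Nat.sInf_le (upper G)

theorem sharp (N : ℕ) : ∃ (G : Type) (_ : Group G) (_ : Finite G),
    N ≤ Nat.card G ∧ m G = 2 * Nat.card G ^ 2 := by
  obtain ⟨q, R, hq, h3, hR0, hR, hbig, hinj, hN⟩ := primes N
  have hpos : 0 < ∏ i : Fin 7, q i := Finset.prod_pos fun i _ => (hq i).pos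
  haveI : Finite (GG q) := by
    apply Nat.finite_of_card_ne_zero
    rw [card_GG]; omega
  refine ⟨GG q, inferInstance, inferInstance, ?_, le_antisymm (m_le _) ?_⟩
  · have := Nat.le_of_dvd hpos
      (Finset.dvd_prod_of_mem (fun i : Fin 7 => q i) (Finset.mem_univ 0))
    have := hN ((0 : Fin 7) : ℕ)
    rw [card_GG]; omega
  · refine le_csInf ⟨_, upper (GG q)⟩ ?_
    rintro n ⟨H, _, _, ι, hι, hsq, rfl⟩
    exact lowerG q R hq h3 hR0 hR hbig hinj ι hι hsq

theorem result : sInf admissible = 2 ∧ IsLeast admissible 2 ∧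
    ∀ N : ℕ, ∃ (G : Type) (_ : Group G) (_ : Finite G),
      N ≤ Nat.card G ∧ m G = 2 * Nat.card G ^ 2 := by
  have h : IsLeast admissible 2 := by
    constructor
    · refine ⟨0, fun G _ _ _ => ?_⟩
      exact_mod_cast m_le G
    · rintro c ⟨N, hN⟩
      obtain ⟨G, _, _, h1, h2⟩ := sharp N
      have h3 := hN G h1
      rw [h2] at h3
      push_cast at h3
      have h4 : (0 : ℝ) < (Nat.card G : ℝ) ^ 2 := by
        have : 0 < Nat.card G := Nat.card_pos
        positivity
      exact le_of_mul_le_mul_right h3 h4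
  exact ⟨h.csInf_eq, h, sharp⟩

end Pool.Agent.Results.MP_a87126_al.Sharp
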